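import Pool.Agent.Helper55.BT.Stm2

/-!
# CEN1 (helper15, second try): the commutator form of a central extension of `F_2^n`
-/

set_option autoImplicit false

open Finset Module

namespace Pool.Agent.Helper15.CEN1

open Pool.Agent.Helper55.BT

/-- the centre is commutative -/
local instance cg (Γ : Type) [Group Γ] : CommGroup (Subgroup.center Γ) :=
  { (inferInstance : Group (Subgroup.center Γ)) with
    mul_comm := fun a b => Subtype.ext (Subgroup.mem_center_iff.1 b.2 a) }

section

variable {n : ℕ} {Γ : Type} [Group Γ] {π : Γ → V n} (hπ : ∀ p q, π (p * q) = π p + π q)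
  (hc : ∀ p, π p = 0 → ∀ q, p * q = q * p)

/-- the commutator -/
def cm (p q : Γ) : Γ := p * q * p⁻¹ * q⁻¹

include hπ in
theorem pi_one : π 1 = 0 := by
  have h := hπ 1 1
  rw [mul_one] at h
  exact left_eq_add.1 h

include hπ in
theorem pi_inv (p : Γ) : π p⁻¹ = - π p := by
  have h := hπ p⁻¹ p
  rw [inv_mul_cancel, pi_one hπ] at h
  exact eq_neg_of_add_eq_zero_left h.symm

include hπ in
theorem pi_cm (p q : Γ) : π (cm p q) = 0 := by
  unfold cm
  rw [hπ, hπ, hπ, pi_inv hπ, pi_inv hπ]
  abel

include hπ hc in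
theorem cm_comm (p q r : Γ) : cm p q * r = r * cm p q := hc _ (pi_cm hπ p q) r

include hπ hc in
theorem cm_mul_left (p p' q : Γ) : cm (p * p') q = cm p q * cm p' q := by
  have h1 : cm (p * p') q = p * cm p' q * (q * p⁻¹ * q⁻¹) := by unfold cm; group
  rw [h1, ← cm_comm hπ hc p' q p]
  have h2 : cm p' q * p * (q * p⁻¹ * q⁻¹) = cm p' q * cm p q := by unfold cm; group
  rw [h2, cm_comm hπ hc]

include hπ hc in
theorem cm_mul_right (p q q' : Γ) : cm p (q * q') = cm p q * cm p q' := by
  have h1 : cm p (q * q') = cm p q * (q * cm p q' * q⁻¹) := by unfold cm; group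
  rw [h1, ← cm_comm hπ hc p q' q, mul_inv_cancel_right]

theorem cm_self (p : Γ) : cm p p = 1 := by unfold cm; group

include hc in
theorem cm_zero_left {a : Γ} (ha : π a = 0) (q : Γ) : cm a q = 1 := by
  unfold cm
  rw [hc a ha q]
  group

include hc in
theorem cm_zero_right (p : Γ) {a : Γ} (ha : π a = 0) : cm p a = 1 := by
  unfold cm
  rw [← hc a ha p]
  group

include hπ hc in
theorem cm_congr {p p' q q' : Γ} (h : π p = π p') (h' : π q = π q') : cm p q = cm p' q' := by
  have h1 : π (p'⁻¹ * p) = 0 := by rw [hπ, pi_inv hπ, h]; abel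
  have h2 : π (q'⁻¹ * q) = 0 := by rw [hπ, pi_inv hπ, h']; abel
  have h3 : p = p' * (p'⁻¹ * p) := by group
  have h4 : q = q' * (q'⁻¹ * q) := by group
  rw [h3, h4, cm_mul_left hπ hc, cm_zero_left hc h1, mul_one, cm_mul_right hπ hc,
    cm_zero_right hc _ h2, mul_one]

end

theorem main : S_CEN1 := by
  intro n Γ _ π hπ hc
  classical
  let I : Submodule (ZMod 2) (V n) :=
    { carrier := Set.range π
      zero_mem' := ⟨1, pi_one hπ⟩
      add_mem' := by
        rintro _ _ ⟨p, rfl⟩ ⟨q, rfl⟩
        exact ⟨p * q, hπ p q⟩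
      smul_mem' := by
        intro c x hx
        have h2 : ∀ c : ZMod 2, c = 0 ∨ c = 1 := by decide
        rcases h2 c with rfl | rfl
        · rw [zero_smul]
          exact ⟨1, pi_one hπ⟩
        · rw [one_smul]
          exact hx }
  obtain ⟨ψ, hψ⟩ := I.subtype.exists_leftInverse_of_injective I.ker_subtype
  have hψI : ∀ p : Γ, ((ψ (π p) : I) : V n) = π p := by
    intro p
    have h1 := LinearMap.congr_fun hψ ⟨π p, p, rfl⟩
    exact congrArg Subtype.val h1
  have hs : ∀ x : V n, ∃ p : Γ, π p = (ψ x : V n) := fun x => (ψ x).2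
  choose s hs using hs
  have hZ : ∀ p q : Γ, cm p q ∈ Subgroup.center Γ := fun p q =>
    Subgroup.mem_center_iff.2 fun r => (cm_comm hπ hc p q r).symm
  let γ0 : V n → V n → Additive (Subgroup.center Γ) := fun x y =>
    Additive.ofMul ⟨cm (s x) (s y), hZ _ _⟩
  have hadd : ∀ x x' y, γ0 (x + x') y = γ0 x y + γ0 x' y := by
    intro x x' y
    apply Additive.toMul.injective
    apply Subtype.ext
    change cm (s (x + x')) (s y) = cm (s x) (s y) * cm (s x') (s y)
    rw [← cm_mul_left hπ hc]
    apply cm_congr hπ hc _ rfl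
    rw [hπ, hs, hs, hs, map_add]
    rfl
  have hadd' : ∀ x y y', γ0 x (y + y') = γ0 x y + γ0 x y' := by
    intro x y y'
    apply Additive.toMul.injective
    apply Subtype.ext
    change cm (s x) (s (y + y')) = cm (s x) (s y) * cm (s x) (s y')
    rw [← cm_mul_right hπ hc]
    apply cm_congr hπ hc rfl
    rw [hπ, hs, hs, hs, map_add]
    rfl
  let γ : V n →+ V n →+ Additive (Subgroup.center Γ) :=
    AddMonoidHom.mk' (fun x => AddMonoidHom.mk' (γ0 x) (hadd' x)) (fun x x' =>
      AddMonoidHom.ext fun y => hadd x x' y)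
  have hl : ∀ x x' y, γ (x + x') y = γ x y + γ x' y := hadd
  have hr : ∀ x y y', γ x (y + y') = γ x y + γ x y' := hadd'
  have halt : ∀ x, γ x x = 0 := by
    intro x
    apply Additive.toMul.injective
    apply Subtype.ext
    exact cm_self (s x)
  have hanti : ∀ x y, γ x y = - γ y x := by
    intro x y
    have h1 := halt (x + y)
    rw [hl, hr, hr, halt, halt, zero_add, add_zero] at h1
    exact eq_neg_of_add_eq_zero_left h1
  let b : V n → V n → Additive (Subgroup.center Γ) := fun x y =>
    ∑ i : Fin n, ∑ j : Fin n, if j < i then γ (Pi.single i (x i)) (Pi.single j (y j)) else 0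
  have hb1 : ∀ x x' y, b (x + x') y = b x y + b x' y := by
    intro x x' y
    change (∑ i : Fin n, ∑ j : Fin n, _) = (∑ i : Fin n, ∑ j : Fin n, _) + ∑ i : Fin n, ∑ j : Fin n, _
    rw [← sum_add_distrib]
    refine sum_congr rfl fun i _ => ?_
    rw [← sum_add_distrib]
    refine sum_congr rfl fun j _ => ?_
    split_ifs
    · rw [Pi.add_apply, Pi.single_add, hl]
    · rw [add_zero]
  have hb2 : ∀ x y y', b x (y + y') = b x y + b x y' := by
    intro x y y'
    change (∑ i : Fin n, ∑ j : Fin n, _) = (∑ i : Fin n, ∑ j : Fin n, _) + ∑ i : Fin n, ∑ j : Fin n, _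
    rw [← sum_add_distrib]
    refine sum_congr rfl fun i _ => ?_
    rw [← sum_add_distrib]
    refine sum_congr rfl fun j _ => ?_
    split_ifs
    · rw [Pi.add_apply, Pi.single_add, hr]
    · rw [add_zero]
  have hdiag : ∀ (i : Fin n) (a c : ZMod 2), γ (Pi.single i a) (Pi.single i c) = 0 := by
    intro i a c
    have h2 : ∀ c : ZMod 2, c = 0 ∨ c = 1 := by decide
    rcases h2 a with rfl | rfl
    · rw [Pi.single_zero, map_zero, AddMonoidHom.zero_apply]
    · rcases h2 c with rfl | rfl
      · rw [Pi.single_zero, map_zero]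
      · exact halt _
  have hexp : ∀ x y, γ x y = ∑ i : Fin n, ∑ j : Fin n, γ (Pi.single i (x i)) (Pi.single j (y j)) := by
    intro x y
    have hx : x = ∑ i : Fin n, Pi.single i (x i) := (Finset.univ_sum_single x).symm
    have hy : y = ∑ i : Fin n, Pi.single i (y i) := (Finset.univ_sum_single y).symm
    conv_lhs => rw [hx, hy]
    rw [map_sum γ, AddMonoidHom.finsetSum_apply]
    refine sum_congr rfl fun i _ => ?_
    rw [map_sum]
  have hmain : ∀ x y, γ x y = b x y - b y x := by
    intro x y
    rw [hexp, eq_sub_iff_add_eq]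
    have h1 : b y x = ∑ i : Fin n, ∑ j : Fin n,
        if i < j then γ (Pi.single j (y j)) (Pi.single i (x i)) else 0 := by
      change (∑ i : Fin n, ∑ j : Fin n, _) = _
      rw [sum_comm]
    rw [h1, ← sum_add_distrib]
    refine sum_congr rfl fun i _ => ?_
    rw [← sum_add_distrib]
    refine sum_congr rfl fun j _ => ?_
    rcases lt_trichotomy i j with h | h | h
    · rw [if_pos h, if_neg (not_lt.2 h.le), hanti (Pi.single i (x i)), neg_add_cancel]
    · subst h
      rw [if_neg (lt_irrefl _), if_neg (lt_irrefl _), hdiag, add_zero]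
    · rw [if_neg (not_lt.2 h.le), if_pos h, add_zero]
  -- values of `b` have image zero
  let W : AddSubgroup (Additive (Subgroup.center Γ)) :=
    { carrier := {a | π ((Additive.toMul a : Subgroup.center Γ) : Γ) = 0}
      zero_mem' := pi_one hπ
      add_mem' := by
        intro a a' ha ha'
        change π (((Additive.toMul a : Subgroup.center Γ) : Γ) *
          ((Additive.toMul a' : Subgroup.center Γ) : Γ)) = 0
        have h1 : π ((Additive.toMul a : Subgroup.center Γ) : Γ) = 0 := ha
        have h2 : π ((Additive.toMul a' : Subgroup.center Γ) : Γ) = 0 := ha'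
        rw [hπ, h1, h2, add_zero]
      neg_mem' := by
        intro a ha
        change π (((Additive.toMul a : Subgroup.center Γ) : Γ)⁻¹) = 0
        have h1 : π ((Additive.toMul a : Subgroup.center Γ) : Γ) = 0 := ha
        rw [pi_inv hπ, h1, neg_zero] }
  have hbW : ∀ x y, b x y ∈ W := by
    intro x y
    refine W.sum_mem fun i _ => W.sum_mem fun j _ => ?_
    split_ifs
    · exact pi_cm hπ _ _
    · exact W.zero_mem
  refine ⟨fun x y => ((Additive.toMul (b x y) : Subgroup.center Γ) : Γ), fun x y => hbW x y, ?_, ?_, ?_⟩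
  · intro x x' y
    exact congrArg (fun a => ((Additive.toMul a : Subgroup.center Γ) : Γ)) (hb1 x x' y)
  · intro x y y'
    exact congrArg (fun a => ((Additive.toMul a : Subgroup.center Γ) : Γ)) (hb2 x y y')
  · intro p q
    have h1 : cm p q = cm (s (π p)) (s (π q)) := by
      apply cm_congr hπ hc
      · rw [hs, hψI]
      · rw [hs, hψI]
    have h2 := congrArg (fun a => ((Additive.toMul a : Subgroup.center Γ) : Γ)) (hmain (π p) (π q))
    have h3 : cm (s (π p)) (s (π q)) = ((Additive.toMul (b (π p) (π q)) : Subgroup.center Γ) : Γ) *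
        (((Additive.toMul (b (π q) (π p)) : Subgroup.center Γ) : Γ))⁻¹ := by
      rw [← div_eq_mul_inv]
      exact h2
    have h4 : p * q = cm p q * (q * p) := by unfold cm; group
    have h5 := (Subgroup.mem_center_iff.1 (Additive.toMul (b (π p) (π q)) : Subgroup.center Γ).2)
    have h6 := (Subgroup.mem_center_iff.1 (Additive.toMul (b (π q) (π p)) : Subgroup.center Γ).2)
    rw [h4, h1, h3]
    set B := ((Additive.toMul (b (π p) (π q)) : Subgroup.center Γ) : Γ)
    set B' := ((Additive.toMul (b (π q) (π p)) : Subgroup.center Γ) : Γ)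
    rw [mul_assoc B, mul_assoc B, mul_assoc B'⁻¹, h6 (q * p), inv_mul_cancel_left, ← h5]

end Pool.Agent.Helper15.CEN1
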